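import Pool.Agent.H.MP_750254_mp.B

set_option autoImplicit false

namespace Pool.Agent.Results.MP_750254_mp.Cusp

open Finset ComplexConjugate Pool.Agent.H.MP_ae9099_mp Pool.Agent.H.MP_750254_mp

/-- the set of real energies at which the polynomial system has a solution in the upper half plane -/
def Sigma1 {A : Type} [Fintype A] (m : A → A → ℝ) (m₁ : A → ℝ) : Set ℝ :=
  {E | ∃ ξ : A → ℂ, (∀ j, 0 < (ξ j).im) ∧ ∀ j, ξ j * (E - m₁ j + ∑ k, (m j k : ℂ) * ξ k) + 1 = 0}

/-- square summable functions on `V` -/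
noncomputable abbrev L2 (V : Type) := lp (fun _ : V => ℂ) 2

/-- bounded operators on a complex Hilbert space -/
abbrev Op (H : Type) [NormedAddCommGroup H] [InnerProductSpace ℂ H] := H →L[ℂ] H

/-- `T` is self-adjoint -/
def SA {H : Type} [NormedAddCommGroup H] [InnerProductSpace ℂ H] [CompleteSpace H] (T : Op H) : Prop :=
  IsSelfAdjoint T

/-- the spectrum of `T` -/
def spec {H : Type} [NormedAddCommGroup H] [InnerProductSpace ℂ H] (T : Op H) : Set ℂ := spectrum ℂ T

/-- `T` applied to a vector -/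
def app {H : Type} [NormedAddCommGroup H] [InnerProductSpace ℂ H] (T : Op H) (φ : H) : H := T φ

/-- the function underlying an element of `L2 V` -/
def fn {V : Type} (φ : L2 V) : V → ℂ := φ.1

/-- `T` acts by the formula of the tree operator -/
def Acts {V : Type} [DecidableEq V] (τ : RTree V) (t : V → V → ℂ) (w : V → ℝ) (T : Op (L2 V)) : Prop :=
  ∀ (φ : L2 V) (x : V), fn (app T φ) x = τ.op t w (fn φ) x

/-- the number of connected components -/
def ncomp {X : Type} [TopologicalSpace X] (S : Set X) : Cardinal := Cardinal.mk (ConnectedComponents S)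

/-- the standing assumptions on the substitution matrix -/
def GoodM {A : Type} [Fintype A] [DecidableEq A] (M : Matrix A A ℕ) : Prop :=
  (∀ j, 2 ≤ ∑ k, M j k) ∧ (∀ j, 1 ≤ M j j) ∧ ∃ n : ℕ, 0 < n ∧ ∀ j k, 0 < (M ^ n) j k

/-- label invariance, with weight one -/
def LabelInv {A V : Type} [DecidableEq A] (M : Matrix A A ℕ) (τ : RTree V) (a : V → A) (t : V → V → ℂ)
    (w : V → ℝ) (m : A → A → ℝ) (m₁ : A → ℝ) : Prop :=
  (∀ x l, ((τ.ch x).filter (fun u => a u = l)).card = M (a x) l) ∧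
    (∀ x y, t x y ≠ 0 ↔ τ.Adj x y) ∧ (∀ x y, t x y = conj (t y x)) ∧
    (∀ x y, τ.Adj x y → ‖t x y‖ ^ 2 * M (a x) (a y) = m (a x) (a y)) ∧ ∀ x, w x = m₁ (a x)

theorem up_single (x y : V) : up (Pi.single x 1) y = ∑ c : C, (Pi.single y (1 : ℂ) : V → ℂ) (c :: x) := by
  cases y with
  | nil => simp [up, Pi.single_apply]
  | cons c l =>
    by_cases h : l = x
    · subst h; simp [up, Pi.single_apply]
    · simp [up, Pi.single_apply, h, Ne.symm h]

theorem ker_sym (x y : V) : tr.op tt ww (Pi.single x 1) y = conj (tr.op tt ww (Pi.single y 1) x) := by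
  rw [op_eq, op_eq, up_single, up_single]
  simp only [map_add, map_sum, map_mul, Complex.conj_ofReal, Pi.single_apply, apply_ite conj, map_one, map_zero]
  by_cases h : x = y
  · subst h; ring
  · rw [if_neg h, if_neg (Ne.symm h)]; ring

theorem selfadj : IsSelfAdjoint TT := by
  rw [ContinuousLinearMap.isSelfAdjoint_iff']
  refine lp.ext_continuousLinearMap (by norm_num) fun y => ?_
  refine ContinuousLinearMap.ext_ring ?_
  refine lp.ext (funext fun x => ?_)
  show (ContinuousLinearMap.adjoint TT (lp.single 2 y 1)) x = TT (lp.single 2 y 1) x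
  have h1 := lp.inner_single_left (𝕜 := ℂ) x (1 : ℂ) (ContinuousLinearMap.adjoint TT (lp.single 2 y 1))
  rw [ContinuousLinearMap.adjoint_inner_right, lp.inner_single_right] at h1
  simp only [RCLike.inner_apply, map_one, mul_one, one_mul] at h1
  rw [← h1, TT_apply, TT_apply]
  exact (ker_sym y x).symm

theorem result : ∃ (A : Type) (_ : Fintype A) (_ : DecidableEq A) (M : Matrix A A ℕ)
    (V : Type) (_ : DecidableEq V) (τ : RTree V) (a : V → A) (t : V → V → ℂ) (w : V → ℝ)
    (m : A → A → ℝ) (m₁ : A → ℝ) (T : Op (L2 V)),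
    GoodM M ∧ LabelInv M τ a t w m m₁ ∧ Acts τ t w T ∧ SA T ∧
    spec T = Complex.ofReal '' Set.Icc (-(3 * √3)) (3 * √3) ∧
    ncomp (Sigma1 m m₁) ≠ ncomp (spec T) := by
  have h3 : 1 < √3 := Real.lt_sqrt_of_sq_lt (by norm_num)
  have hsp : spectrum ℂ TT = Complex.ofReal '' Set.Icc (-(3 * √3)) (3 * √3) := by
    rw [← spec_eq]
    refine Set.Subset.antisymm (fun z hz => ?_) ?_
    · have := selfadj.mem_spectrum_eq_re hz
      exact ⟨z.re, by rw [Set.mem_setOf_eq, ← this]; exact hz, this.symm⟩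
    · rintro _ ⟨E, hE, rfl⟩; exact hE
  refine ⟨Bool, inferInstance, inferInstance, fun _ _ => 2, V, inferInstance, tr, lab, tt, ww, fun _ _ => 2, pot,
    TT, ⟨fun j => by simp, fun j => by simp, ⟨1, one_pos, fun j k => by simp⟩⟩, ⟨hcount, fun x y => ?_, tt_sym,
    fun x y h => ?_, fun _ => rfl⟩, TT_apply, selfadj, hsp, fun h => ?_⟩
  · unfold tt
    by_cases h : tr.Adj x y <;> simp [h]
  · rw [tt, if_pos h]; simp
  · unfold ncomp spec at h
    haveI : PreconnectedSpace (spectrum ℂ TT) := by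
      rw [← isPreconnected_iff_preconnectedSpace, hsp]
      exact isPreconnected_Icc.image _ Complex.continuous_ofReal.continuousOn
    have h1 : Cardinal.mk (ConnectedComponents (spectrum ℂ TT)) ≤ 1 :=
      Cardinal.le_one_iff_subsingleton.2 inferInstance
    rw [← h, Cardinal.le_one_iff_subsingleton] at h1
    have a1 : (-1 : ℝ) ∈ Sigma1 (fun _ _ : Bool => (2 : ℝ)) pot := sig_of (by norm_num) (by linarith) (by linarith)
    have a2 : (1 : ℝ) ∈ Sigma1 (fun _ _ : Bool => (2 : ℝ)) pot := sig_of (by norm_num) (by linarith) (by linarith)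
    have h2 := ConnectedComponents.coe_eq_coe'.1 (h1.elim (ConnectedComponents.mk ⟨-1, a1⟩)
      (ConnectedComponents.mk ⟨1, a2⟩))
    have h4 := (isPreconnected_connectedComponent (x := (⟨1, a2⟩ : Sigma1 (fun _ _ : Bool => (2 : ℝ)) pot))).image
      Subtype.val continuous_subtype_val.continuousOn
    obtain ⟨p, -, hp⟩ := h4.Icc_subset ⟨_, h2, rfl⟩ ⟨_, mem_connectedComponent, rfl⟩
      (show (0 : ℝ) ∈ Set.Icc (-1) 1 from ⟨by norm_num, by norm_num⟩)
    exact not_sig0 (hp ▸ p.2 : (0 : ℝ) ∈ Sigma1 (fun _ _ : Bool => (2 : ℝ)) pot)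

end Pool.Agent.Results.MP_750254_mp.Cusp
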